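import Mathlib
import Pool.Agent.W761.CP.Defs

/-!
# Schwartz functions are dense in the Sobolev space

From the description of weak gradients on the Fourier side.
-/

set_option autoImplicit false

open MeasureTheory
open scoped ENNReal FourierTransform SchwartzMap InnerProductSpace LineDeriv

namespace Pool.Agent.W308.CP
open Pool.Agent.W761.CP
open Pool.Agent.Helper209.CX (Ed L2d InH1 dirichlet IsHu)

theorem sqnorm {d : ℕ} (f : L2d d) : ∫ x, ‖f x‖ ^ 2 = ‖f‖ ^ 2 := by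
  have h := @L2.inner_def (Ed d) ℂ ℂ _ _ volume _ _ f f
  have h2 : ((‖f‖ ^ 2 : ℝ) : ℂ) = ((∫ x, ‖f x‖ ^ 2 : ℝ) : ℂ) := by
    rw [← integral_complex_ofReal]
    have h3 := inner_self_eq_norm_sq_to_K (𝕜 := ℂ) f
    rw [h] at h3
    rw [Complex.ofReal_pow]
    refine Eq.trans (Eq.symm h3) ?_
    refine integral_congr_ae (Filter.Eventually.of_forall fun x => ?_)
    simp
  exact_mod_cast h2.symm

theorem sub_sq {d : ℕ} (f : L2d d) (φ : 𝓢(Ed d, ℂ)) :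
    ∫ x, ‖f x - φ x‖ ^ 2 = ‖f - φ.toLp 2 volume‖ ^ 2 := by
  rw [← sqnorm]
  refine integral_congr_ae ?_
  filter_upwards [Lp.coeFn_sub f (φ.toLp 2 volume), φ.coeFn_toLp 2 volume] with x h1 h2
  rw [h1]
  simp only [Pi.sub_apply]
  rw [h2]

theorem norm_le_sum {d : ℕ} (ξ : Ed d) : ‖ξ‖ ≤ ∑ k, |ξ k| := by
  rw [EuclideanSpace.norm_eq]
  refine Real.sqrt_le_iff.2 ⟨Finset.sum_nonneg fun k _ => abs_nonneg _, ?_⟩
  have := Finset.sum_sq_le_sq_sum_of_nonneg (s := Finset.univ) (f := fun k => |ξ k|)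
    (fun k _ => abs_nonneg _)
  simpa using this

theorem fourier_sub' {d : ℕ} (f g : L2d d) : (𝓕 (f - g) : L2d d) = 𝓕 f - 𝓕 g :=
  (Lp.fourierTransformₗᵢ (Ed d) ℂ).map_sub f g

theorem den : S_FT → S_DEN := by
  intro hFT d u g ε hε hg
  rw [hFT] at hg
  set U : L2d d := 𝓕 u with hU
  -- the weight
  have hpos : ∀ ξ : Ed d, 0 < 1 + ‖ξ‖ ^ 2 := fun ξ => by positivity
  set wt : Ed d → ℝ := fun ξ => (1 + ‖ξ‖ ^ 2) ^ (1 / 2 : ℝ) with hwt
  set wi : Ed d → ℝ := fun ξ => (1 + ‖ξ‖ ^ 2) ^ (-(1 / 2) : ℝ) with hwi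
  have hwtpos : ∀ ξ, 0 < wt ξ := fun ξ => Real.rpow_pos_of_pos (hpos ξ) _
  have hwipos : ∀ ξ, 0 < wi ξ := fun ξ => Real.rpow_pos_of_pos (hpos ξ) _
  have hmul : ∀ ξ, wi ξ * wt ξ = 1 := by
    intro ξ
    simp only [hwt, hwi]
    rw [← Real.rpow_add (hpos ξ)]
    norm_num
  have hwt1 : ∀ ξ, 1 ≤ wt ξ := by
    intro ξ
    refine Real.one_le_rpow ?_ (by norm_num)
    nlinarith [sq_nonneg ‖ξ‖]
  have hwtsqrt : ∀ ξ, wt ξ = Real.sqrt (1 + ‖ξ‖ ^ 2) := by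
    intro ξ
    rw [Real.sqrt_eq_rpow]
  have hwtle : ∀ ξ, wt ξ ≤ 1 + ‖ξ‖ := by
    intro ξ
    rw [hwtsqrt]
    exact sqrt_one_add_norm_sq_le ξ
  have hlewt : ∀ ξ, ‖ξ‖ ≤ wt ξ := by
    intro ξ
    rw [hwtsqrt]
    exact Real.le_sqrt_of_sq_le (by linarith)
  have hwi1 : ∀ ξ, wi ξ ≤ 1 := by
    intro ξ
    nlinarith [hmul ξ, hwt1 ξ, hwipos ξ]
  have hcoord : ∀ (ξ : Ed d) k, |ξ k| ≤ ‖ξ‖ := by
    intro ξ k
    have := PiLp.norm_apply_le ξ k
    simpa using this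
  have hwtc : Continuous wt := by
    refine Continuous.rpow_const (by fun_prop) fun ξ => Or.inl (hpos ξ).ne'
  -- the weighted transform is in L2
  have hw : MemLp (fun ξ => wt ξ • U ξ) 2 volume := by
    have hb : MemLp (fun ξ => ‖U ξ‖ + ∑ k, ‖(𝓕 (g k) : L2d d) ξ‖) 2 volume := by
      refine MemLp.add (Lp.memLp U).norm ?_
      exact memLp_finsetSum _ fun k _ => (Lp.memLp (𝓕 (g k) : L2d d)).norm
    refine hb.mono ?_ ?_
    · exact (hwtc.aestronglyMeasurable).smul (Lp.aestronglyMeasurable U)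
    · have hall : ∀ᵐ ξ : Ed d, ∀ k, (𝓕 (g k) : L2d d) ξ
          = (2 * Real.pi * Complex.I * (ξ k : ℂ)) * U ξ := by
        rw [ae_all_iff]
        exact hg
      filter_upwards [hall] with ξ hξ
      have e1 : ∀ k, ‖(𝓕 (g k) : L2d d) ξ‖ = 2 * Real.pi * |ξ k| * ‖U ξ‖ := by
        intro k
        rw [hξ k]
        simp [abs_of_pos Real.pi_pos]
      have e2 : 0 ≤ ‖U ξ‖ + ∑ k, ‖(𝓕 (g k) : L2d d) ξ‖ :=
        add_nonneg (norm_nonneg _) (Finset.sum_nonneg fun k _ => norm_nonneg _)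
      rw [Real.norm_of_nonneg e2, norm_smul, Real.norm_of_nonneg (hwtpos ξ).le]
      simp only [e1]
      have e3 : ∑ k, 2 * Real.pi * |ξ k| * ‖U ξ‖ = 2 * Real.pi * (∑ k, |ξ k|) * ‖U ξ‖ := by
        rw [Finset.mul_sum, Finset.sum_mul]
      rw [e3]
      have e4 := norm_le_sum ξ
      have e5 := hwtle ξ
      have e6 : ∑ k, |ξ k| ≤ 2 * Real.pi * ∑ k, |ξ k| := by
        have : 0 ≤ ∑ k, |ξ k| := Finset.sum_nonneg fun k _ => abs_nonneg _
        nlinarith [Real.pi_gt_three]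
      have e7 : 0 ≤ ‖U ξ‖ := norm_nonneg _
      nlinarith
  set W : L2d d := hw.toLp _ with hW
  have hWae : ∀ᵐ ξ : Ed d, W ξ = wt ξ • U ξ := hw.coeFn_toLp
  -- approximate
  set δ : ℝ := Real.sqrt ε / 8 with hδ
  have hδ0 : 0 < δ := by positivity
  obtain ⟨ψ, hψ⟩ := (SchwartzMap.denseRange_toLpCLM (E := Ed d) (F := ℂ) (p := 2) (μ := volume)
    ENNReal.ofNat_ne_top).exists_dist_lt W hδ0
  rw [SchwartzMap.toLpCLM_apply, dist_eq_norm] at hψ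
  have hδ2 : (2 * Real.pi * δ) ^ 2 < ε := by
    have hs : Real.sqrt ε ^ 2 = ε := Real.sq_sqrt hε.le
    have : (2 * Real.pi * δ) ^ 2 = (Real.pi / 4) ^ 2 * ε := by
      rw [hδ]
      have h4 : (2 * Real.pi * (Real.sqrt ε / 8)) ^ 2 = (Real.pi / 4) ^ 2 * Real.sqrt ε ^ 2 := by
        ring
      rw [h4, hs]
    rw [this]
    have hp : (Real.pi / 4) ^ 2 < 1 := by
      have := Real.pi_lt_four
      have := Real.pi_pos
      nlinarith
    nlinarith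
  have hδ3 : δ ^ 2 < ε := by
    refine lt_of_le_of_lt ?_ hδ2
    have := Real.pi_gt_three
    have h1 : δ ≤ 2 * Real.pi * δ := by nlinarith
    exact pow_le_pow_left₀ hδ0.le h1 2
  have hwiT : (wi).HasTemperateGrowth := Function.hasTemperateGrowth_one_add_norm_sq_rpow _ _
  set φh : 𝓢(Ed d, ℂ) := SchwartzMap.smulLeftCLM ℂ wi ψ with hφh
  have hφhx : ∀ ξ, φh ξ = wi ξ • ψ ξ := fun ξ =>
    SchwartzMap.smulLeftCLM_apply_apply hwiT ψ ξ
  set φ : 𝓢(Ed d, ℂ) := 𝓕⁻ φh with hφ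
  have hFφ : 𝓕 φ = φh := by
    rw [hφ]
    exact FourierTransform.fourier_fourierInv_eq φh
  have hψae := ψ.coeFn_toLp 2 (volume : Measure (Ed d))
  -- the pointwise estimate
  have hpt : ∀ ξ : Ed d, U ξ - φh ξ = wi ξ • (wt ξ • U ξ - ψ ξ) := by
    intro ξ
    rw [hφhx, smul_sub, smul_smul, hmul ξ, one_smul]
  refine ⟨φ, ?_, ?_⟩
  · rw [sub_sq]
    have h1 : ‖u - φ.toLp 2 volume‖ = ‖U - φh.toLp 2 volume‖ := by
      rw [← Lp.norm_fourier_eq (u - φ.toLp 2 volume), fourier_sub', SchwartzMap.toLp_fourier_eq, hFφ]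
    have h2 : ‖U - φh.toLp 2 volume‖ ≤ ‖W - ψ.toLp 2 volume‖ := by
      refine Lp.norm_le_norm_of_ae_le ?_
      filter_upwards [hWae, hψae, φh.coeFn_toLp 2 (volume : Measure (Ed d)),
        Lp.coeFn_sub U (φh.toLp 2 volume), Lp.coeFn_sub W (ψ.toLp 2 volume)] with ξ a1 a2 a3 a4 a5
      rw [a4, a5]
      simp only [Pi.sub_apply]
      rw [a1, a2, a3, hpt ξ, norm_smul, Real.norm_of_nonneg (hwipos ξ).le]
      nlinarith [hwi1 ξ, norm_nonneg (wt ξ • U ξ - ψ ξ)]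
    rw [h1]
    have h3 : ‖U - φh.toLp 2 volume‖ < δ := lt_of_le_of_lt h2 hψ
    nlinarith [norm_nonneg (U - φh.toLp 2 volume)]
  · intro k
    have hT : (inner ℝ · (ev k) : Ed d → ℝ).HasTemperateGrowth :=
      ((innerSL ℝ).flip (ev k)).hasTemperateGrowth
    set χ : 𝓢(Ed d, ℂ) := ∂_{(ev k : Ed d)} φ with hχ
    have hχx : ∀ x, χ x = fderiv ℝ (fun y => φ y) x (ev k) := fun x =>
      SchwartzMap.lineDerivOp_apply_eq_fderiv (ev k) φ x
    have hFχ : ∀ ξ, (𝓕 χ) ξ = (2 * Real.pi * Complex.I * (ξ k : ℂ)) * φh ξ := by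
      intro ξ
      rw [hχ, SchwartzMap.fourier_lineDerivOp_eq, hFφ]
      rw [smul_apply, SchwartzMap.smulLeftCLM_apply_apply hT]
      have : (inner ℝ ξ (ev k) : ℝ) = ξ k := by
        simp [ev, EuclideanSpace.inner_single_right]
      rw [this]
      simp only [smul_eq_mul, Complex.real_smul]
      ring
    have h0 : ∫ x, ‖g k x - fderiv ℝ (fun y => φ y) x (ev k)‖ ^ 2
        = ∫ x, ‖g k x - χ x‖ ^ 2 := by
      simp only [hχx]
    rw [h0, sub_sq]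
    have h1 : ‖g k - χ.toLp 2 volume‖ = ‖(𝓕 (g k) : L2d d) - (𝓕 χ).toLp 2 volume‖ := by
      rw [← Lp.norm_fourier_eq (g k - χ.toLp 2 volume), fourier_sub', SchwartzMap.toLp_fourier_eq]
    have h2 : ‖(𝓕 (g k) : L2d d) - (𝓕 χ).toLp 2 volume‖ ≤ (2 * Real.pi) * ‖W - ψ.toLp 2 volume‖ := by
      refine Lp.norm_le_mul_norm_of_ae_le_mul ?_
      filter_upwards [hWae, hψae, (𝓕 χ).coeFn_toLp 2 (volume : Measure (Ed d)),
        Lp.coeFn_sub (𝓕 (g k) : L2d d) ((𝓕 χ).toLp 2 volume), Lp.coeFn_sub W (ψ.toLp 2 volume), hg k]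
        with ξ a1 a2 a3 a4 a5 a6
      rw [a4, a5]
      simp only [Pi.sub_apply]
      rw [a1, a2, a3, a6, hFχ ξ, ← mul_sub, hpt ξ, norm_mul, norm_smul,
        Real.norm_of_nonneg (hwipos ξ).le]
      have e1 : ‖(2 * Real.pi * Complex.I * (ξ k : ℂ))‖ = 2 * Real.pi * |ξ k| := by
        simp [abs_of_pos Real.pi_pos]
      rw [e1]
      have e2 : |ξ k| * wi ξ ≤ 1 := by
        have := hcoord ξ k
        have h3 := hlewt ξ
        have h4 := hmul ξ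
        have h5 := hwipos ξ
        nlinarith
      have e3 : 0 ≤ ‖wt ξ • U ξ - ψ ξ‖ := norm_nonneg _
      calc 2 * Real.pi * |ξ k| * (wi ξ * ‖wt ξ • U ξ - ψ ξ‖)
          = 2 * Real.pi * (|ξ k| * wi ξ) * ‖wt ξ • U ξ - ψ ξ‖ := by ring
        _ ≤ 2 * Real.pi * 1 * ‖wt ξ • U ξ - ψ ξ‖ := by
            gcongr
        _ = _ := by ring
    rw [h1]
    have h3 : ‖(𝓕 (g k) : L2d d) - (𝓕 χ).toLp 2 volume‖ < 2 * Real.pi * δ :=
      lt_of_le_of_lt h2 (by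
        have := Real.pi_pos
        exact mul_lt_mul_of_pos_left hψ (by positivity))
    refine lt_trans ?_ hδ2
    exact pow_lt_pow_left₀ h3 (norm_nonneg _) (by norm_num)

end Pool.Agent.W308.CP
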